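import Mathlib
import Pool.Graph.R_seed8.Y279.VT.Main

set_option autoImplicit false

/-!
# Two powers of an element which live on `(0,b)` and `(0,1-b]`: the Wronskian

Adapted from the module `Y279/VT/Wron` of the pool library, which treats `b = 1/2`.
-/

namespace Pool.Agent.H8VT

open MeasureTheory Set Filter Topology
open Pool.Agent.Results.MP_81f94f_an.FlatRunsNotNormSequence (const_mul_exp)
open Pool.Agent.Y279.VT (pow_sub_pow_le titch_entire)

/-- The abstract core.  `F ^ (m+1) = P + C`, `F ^ (n+1) = Q + E` where `P`, `Q` are transforms of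
measures on `(0,β)` and `(0,γ]`, `β + γ = 1`, and `C`, `E` of measures on `[1,∞)`.  Then `P ^ (n+1) = Q ^ (m+1)`. -/
theorem wron {F P Q C E F' P' Q' C' E' : ℂ → ℂ} {m n : ℕ} {K β γ : ℝ} (hβγ : β + γ = 1)
    (hF : ∀ z, HasDerivAt F (F' z) z)
    (hP : ∀ z, HasDerivAt P (P' z) z) (hQ : ∀ z, HasDerivAt Q (Q' z) z)
    (hC : ∀ z, HasDerivAt C (C' z) z) (hE : ∀ z, HasDerivAt E (E' z) z)
    (hP'd : Differentiable ℂ P') (hQ'd : Differentiable ℂ Q')
    (hpowP : ∀ z, F z ^ (m + 1) = P z + C z) (hpowQ : ∀ z, F z ^ (n + 1) = Q z + E z)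
    (hPl : ∀ z : ℂ, z.re ≤ 0 → ‖P z‖ ≤ K * Real.exp (-z.re * β))
    (hP'l : ∀ z : ℂ, z.re ≤ 0 → ‖P' z‖ ≤ K * Real.exp (-z.re * β))
    (hQl : ∀ z : ℂ, z.re ≤ 0 → ‖Q z‖ ≤ K * Real.exp (-z.re * γ))
    (hQ'l : ∀ z : ℂ, z.re ≤ 0 → ‖Q' z‖ ≤ K * Real.exp (-z.re * γ))
    (hFr : ∀ z : ℂ, 0 ≤ z.re → ‖F z‖ ≤ K) (hF'r : ∀ z : ℂ, 0 ≤ z.re → ‖F' z‖ ≤ K)
    (hPr : ∀ z : ℂ, 0 ≤ z.re → ‖P z‖ ≤ K) (hP'r : ∀ z : ℂ, 0 ≤ z.re → ‖P' z‖ ≤ K)
    (hQr : ∀ z : ℂ, 0 ≤ z.re → ‖Q z‖ ≤ K) (hQ'r : ∀ z : ℂ, 0 ≤ z.re → ‖Q' z‖ ≤ K)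
    (hCr : ∀ z : ℂ, 0 ≤ z.re → ‖C z‖ ≤ K * Real.exp (-z.re))
    (hC'r : ∀ z : ℂ, 0 ≤ z.re → ‖C' z‖ ≤ K * Real.exp (-z.re))
    (hEr : ∀ z : ℂ, 0 ≤ z.re → ‖E z‖ ≤ K * Real.exp (-z.re))
    (hE'r : ∀ z : ℂ, 0 ≤ z.re → ‖E' z‖ ≤ K * Real.exp (-z.re))
    (hP0 : Tendsto (fun x : ℝ => P (-x) * Complex.exp (-(x * β))) atTop (𝓝 0))
    (hP'0 : Tendsto (fun x : ℝ => P' (-x) * Complex.exp (-(x * β))) atTop (𝓝 0))
    (hlarge : ∀ ε > 0, ∀ A : ℝ, ∃ x : ℝ, A < x ∧ Real.exp (-(ε * x)) ≤ ‖F (x : ℂ)‖) :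
    ∀ z, P z ^ (n + 1) = Q z ^ (m + 1) := by
  have hK : 0 ≤ K := (norm_nonneg _).trans (hFr 0 (by simp))
  have hFd : Differentiable ℂ F := fun z => (hF z).differentiableAt
  have hPd : Differentiable ℂ P := fun z => (hP z).differentiableAt
  have hQd : Differentiable ℂ Q := fun z => (hQ z).differentiableAt
  have nn : ∀ j : ℕ, ‖(j + 1 : ℂ)‖ = j + 1 := by
    intro j
    rw [← Nat.cast_succ, Complex.norm_natCast]; simp
  set W : ℂ → ℂ := fun z => (n + 1) * P' z * Q z - (m + 1) * P z * Q' z with hWdef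
  have hWd : Differentiable ℂ W :=
    (((differentiable_const _).mul hP'd).mul hQd).sub
      (((differentiable_const _).mul hPd).mul hQ'd)
  have hderP : ∀ z, (m + 1 : ℂ) * F z ^ m * F' z = P' z + C' z := by
    intro z
    have h1 : HasDerivAt (fun z => F z ^ (m + 1)) ((m + 1 : ℂ) * F z ^ m * F' z) z := by
      have := (hF z).fun_pow (m + 1)
      simpa using this
    have h2 : HasDerivAt (fun z => F z ^ (m + 1)) (P' z + C' z) z := by
      have h3 : (fun z => F z ^ (m + 1)) = fun z => P z + C z := funext hpowP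
      rw [h3]; exact (hP z).add (hC z)
    exact h1.unique h2
  have hderQ : ∀ z, (n + 1 : ℂ) * F z ^ n * F' z = Q' z + E' z := by
    intro z
    have h1 : HasDerivAt (fun z => F z ^ (n + 1)) ((n + 1 : ℂ) * F z ^ n * F' z) z := by
      have := (hF z).fun_pow (n + 1)
      simpa using this
    have h2 : HasDerivAt (fun z => F z ^ (n + 1)) (Q' z + E' z) z := by
      have h3 : (fun z => F z ^ (n + 1)) = fun z => Q z + E z := funext hpowQ
      rw [h3]; exact (hQ z).add (hE z)
    exact h1.unique h2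
  have hFW : ∀ z, F z * W z = (n + 1) * Q z * ((m + 1) * C z * F' z - F z * C' z) -
      (m + 1) * P z * ((n + 1) * E z * F' z - F z * E' z) := by
    intro z
    have h1 : F z * (P' z + C' z) = (m + 1) * (P z + C z) * F' z := by
      rw [← hderP, ← hpowP]; ring
    have h2 : F z * (Q' z + E' z) = (n + 1) * (Q z + E z) * F' z := by
      rw [← hderQ, ← hpowQ]; ring
    simp only [hWdef]
    linear_combination ((n + 1) * Q z) * h1 - ((m + 1) * P z) * h2
  have hWr : ∀ z : ℂ, 0 ≤ z.re → ‖W z‖ ≤ (n + m + 2) * (K * K) := by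
    intro z hz
    calc ‖W z‖ ≤ ‖(n + 1) * P' z * Q z‖ + ‖(m + 1) * P z * Q' z‖ := norm_sub_le _ _
      _ = (n + 1) * (‖P' z‖ * ‖Q z‖) + (m + 1) * (‖P z‖ * ‖Q' z‖) := by
          rw [norm_mul, norm_mul, norm_mul, norm_mul, nn, nn]; ring
      _ ≤ (n + 1) * (K * K) + (m + 1) * (K * K) := by
          gcongr
          · exact hP'r z hz
          · exact hQr z hz
          · exact hPr z hz
          · exact hQ'r z hz
      _ = _ := by ring
  have hFWr : ∀ z : ℂ, 0 ≤ z.re → ‖F z * W z‖ ≤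
      ((n + 1) * K * ((m + 2) * (K * K)) + (m + 1) * K * ((n + 2) * (K * K))) *
        Real.exp (-z.re) := by
    intro z hz
    rw [hFW]
    have hexp := (Real.exp_pos (-z.re)).le
    have e1 : ‖(m + 1) * C z * F' z - F z * C' z‖ ≤ ((m + 2) * (K * K)) * Real.exp (-z.re) := by
      calc ‖(m + 1) * C z * F' z - F z * C' z‖ ≤ ‖(m + 1) * C z * F' z‖ + ‖F z * C' z‖ :=
            norm_sub_le _ _
        _ = (m + 1) * (‖C z‖ * ‖F' z‖) + ‖F z‖ * ‖C' z‖ := by
            rw [norm_mul, norm_mul, norm_mul, nn]; ring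
        _ ≤ (m + 1) * ((K * Real.exp (-z.re)) * K) + K * (K * Real.exp (-z.re)) := by
            gcongr
            · exact hCr z hz
            · exact hF'r z hz
            · exact hFr z hz
            · exact hC'r z hz
        _ = _ := by ring
    have e2 : ‖(n + 1) * E z * F' z - F z * E' z‖ ≤ ((n + 2) * (K * K)) * Real.exp (-z.re) := by
      calc ‖(n + 1) * E z * F' z - F z * E' z‖ ≤ ‖(n + 1) * E z * F' z‖ + ‖F z * E' z‖ :=
            norm_sub_le _ _
        _ = (n + 1) * (‖E z‖ * ‖F' z‖) + ‖F z‖ * ‖E' z‖ := by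
            rw [norm_mul, norm_mul, norm_mul, nn]; ring
        _ ≤ (n + 1) * ((K * Real.exp (-z.re)) * K) + K * (K * Real.exp (-z.re)) := by
            gcongr
            · exact hEr z hz
            · exact hF'r z hz
            · exact hFr z hz
            · exact hE'r z hz
        _ = _ := by ring
    refine (norm_sub_le _ _).trans ?_
    rw [norm_mul, norm_mul, norm_mul, norm_mul, nn, nn]
    calc (n + 1) * ‖Q z‖ * ‖(m + 1) * C z * F' z - F z * C' z‖ +
          (m + 1) * ‖P z‖ * ‖(n + 1) * E z * F' z - F z * E' z‖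
        ≤ (n + 1) * K * (((m + 2) * (K * K)) * Real.exp (-z.re)) +
          (m + 1) * K * (((n + 2) * (K * K)) * Real.exp (-z.re)) := by
          gcongr
          · exact hQr z hz
          · exact hPr z hz
      _ = _ := by ring
  obtain ⟨K', hK'⟩ := titch_entire (H := F) (W := W) hFd hWd
    (K := K + (n + m + 2) * (K * K))
    (fun z hz => (hFr z hz).trans (by
      have : 0 ≤ (n + m + 2 : ℝ) * (K * K) := by positivity
      linarith))
    (fun z hz => (hWr z hz).trans (by linarith)) hFWr hlarge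
  have hWl : ∀ z : ℂ, z.re ≤ 0 → ‖W z‖ ≤ ((n + m + 2) * (K * K)) * Real.exp (-z.re) := by
    intro z hz
    have e1 : Real.exp (-z.re * β) * Real.exp (-z.re * γ) = Real.exp (-z.re) := by
      rw [← Real.exp_add, ← mul_add, hβγ, mul_one]
    calc ‖W z‖ ≤ ‖(n + 1) * P' z * Q z‖ + ‖(m + 1) * P z * Q' z‖ := norm_sub_le _ _
      _ = (n + 1) * (‖P' z‖ * ‖Q z‖) + (m + 1) * (‖P z‖ * ‖Q' z‖) := by
          rw [norm_mul, norm_mul, norm_mul, norm_mul, nn, nn]; ring
      _ ≤ (n + 1) * ((K * Real.exp (-z.re * β)) * (K * Real.exp (-z.re * γ))) +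
          (m + 1) * ((K * Real.exp (-z.re * β)) * (K * Real.exp (-z.re * γ))) := by
          gcongr
          · exact hP'l z hz
          · exact hQl z hz
          · exact hPl z hz
          · exact hQ'l z hz
      _ = ((n + m + 2) * (K * K)) * (Real.exp (-z.re * β) * Real.exp (-z.re * γ)) := by ring
      _ = _ := by rw [e1]
  have hWb : ∀ z : ℂ, ‖W z‖ ≤ (|K'| + (n + m + 2) * (K * K)) * Real.exp (-z.re) := by
    intro z
    have hexp := Real.exp_pos (-z.re)
    have h2 : 0 ≤ (n + m + 2 : ℝ) * (K * K) := by positivity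
    rcases le_total z.re 0 with hz | hz
    · refine (hWl z hz).trans ?_
      apply mul_le_mul_of_nonneg_right _ hexp.le
      have := abs_nonneg K'
      linarith
    · refine (hK' z hz).trans ?_
      apply mul_le_mul_of_nonneg_right _ hexp.le
      have := le_abs_self K'
      linarith
  obtain ⟨κ, hκ⟩ := const_mul_exp hWd hWb
  -- the constant vanishes: look at `-∞`
  have hκ0 : κ = 0 := by
    have hlim : Tendsto (fun x : ℝ => (n + 1) * K * ‖P' (-x) * Complex.exp (-(x * β))‖ +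
        (m + 1) * K * ‖P (-x) * Complex.exp (-(x * β))‖) atTop (𝓝 0) := by
      have h1 := (hP'0.norm.const_mul ((n + 1 : ℝ) * K)).add
        (hP0.norm.const_mul ((m + 1 : ℝ) * K))
      simpa using h1
    have hle : ∀ᶠ x : ℝ in atTop, ‖κ‖ ≤ (n + 1) * K * ‖P' (-x) * Complex.exp (-(x * β))‖ +
        (m + 1) * K * ‖P (-x) * Complex.exp (-(x * β))‖ := by
      filter_upwards [eventually_ge_atTop 0] with x hx
      have hβγC : (β : ℂ) + γ = 1 := by exact_mod_cast hβγ
      have h1 : κ = W (-x) * (Complex.exp (-(x * β)) * Complex.exp (-(x * γ))) := by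
        rw [hκ, mul_assoc, ← Complex.exp_add, ← Complex.exp_add]
        have : - -(x : ℂ) + (-(x * β : ℂ) + -(x * γ : ℂ)) = 0 := by
          linear_combination (-(x : ℂ)) * hβγC
        rw [this, Complex.exp_zero, mul_one]
      have h2 : ∀ b : ℝ, ‖Complex.exp (-((x : ℂ) * b))‖ = Real.exp (-(x * b)) := by
        intro b
        rw [Complex.norm_exp]
        congr 1
        have : (-((x : ℂ) * b)) = ((-(x * b) : ℝ) : ℂ) := by push_cast; ring
        rw [this, Complex.ofReal_re]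
      have hxre : (-(x : ℂ)).re ≤ 0 := by simpa using hx
      have hxe : -(-(x : ℂ)).re * γ = x * γ := by simp
      have q1 := hQl _ hxre
      have q2 := hQ'l _ hxre
      rw [hxe] at q1 q2
      have h3 : Real.exp (x * γ) * Real.exp (-(x * γ)) = 1 := by
        rw [← Real.exp_add, ← Real.exp_zero]; congr 1; ring
      have q3 : ‖Q (-x)‖ * Real.exp (-(x * γ)) ≤ K := by
        calc ‖Q (-x)‖ * Real.exp (-(x * γ)) ≤ (K * Real.exp (x * γ)) * Real.exp (-(x * γ)) :=
              mul_le_mul_of_nonneg_right q1 (Real.exp_pos _).le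
          _ = K := by rw [mul_assoc, h3, mul_one]
      have q4 : ‖Q' (-x)‖ * Real.exp (-(x * γ)) ≤ K := by
        calc ‖Q' (-x)‖ * Real.exp (-(x * γ)) ≤ (K * Real.exp (x * γ)) * Real.exp (-(x * γ)) :=
              mul_le_mul_of_nonneg_right q2 (Real.exp_pos _).le
          _ = K := by rw [mul_assoc, h3, mul_one]
      calc ‖κ‖ = ‖(n + 1) * P' (-x) * Q (-x) - (m + 1) * P (-x) * Q' (-x)‖ *
            (Real.exp (-(x * β)) * Real.exp (-(x * γ))) := by
            rw [h1, norm_mul, norm_mul, h2, h2]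
        _ ≤ (‖(n + 1) * P' (-x) * Q (-x)‖ + ‖(m + 1) * P (-x) * Q' (-x)‖) *
            (Real.exp (-(x * β)) * Real.exp (-(x * γ))) := by
            gcongr; exact norm_sub_le _ _
        _ = (n + 1) * (‖P' (-x)‖ * Real.exp (-(x * β))) * (‖Q (-x)‖ * Real.exp (-(x * γ))) +
            (m + 1) * (‖P (-x)‖ * Real.exp (-(x * β))) * (‖Q' (-x)‖ * Real.exp (-(x * γ))) := by
            rw [norm_mul, norm_mul, norm_mul, norm_mul, nn, nn]; ring
        _ ≤ (n + 1) * (‖P' (-x)‖ * Real.exp (-(x * β))) * K +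
            (m + 1) * (‖P (-x)‖ * Real.exp (-(x * β))) * K := by
            gcongr
        _ = _ := by
            rw [norm_mul, norm_mul, h2]; ring
    have := ge_of_tendsto hlim hle
    simpa using this
  have hW0 : ∀ z, (n + 1) * P' z * Q z = (m + 1) * P z * Q' z := by
    intro z
    have := hκ z
    rw [hκ0, zero_mul] at this
    simpa [hWdef, sub_eq_zero] using this
  -- `Q` is not zero at some point
  obtain ⟨z₀, hz₀⟩ : ∃ z, Q z ≠ 0 := by
    by_contra hcon
    push Not at hcon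
    obtain ⟨x, hx1, hx2⟩ := hlarge (1 / (2 * (n + 1))) (by positivity) (2 * Real.log (K + 1))
    have hx0 : 0 ≤ x := by
      have := Real.log_nonneg (by linarith : (1 : ℝ) ≤ K + 1)
      linarith
    have h1 := hpowQ x
    rw [hcon, zero_add] at h1
    have h2 := hEr x (by simpa using hx0)
    rw [← h1, norm_pow, Complex.ofReal_re] at h2
    have h3 : Real.exp (-(1 / (2 * (n + 1)) * x)) ^ (n + 1) ≤ K * Real.exp (-x) :=
      (pow_le_pow_left₀ (Real.exp_pos _).le hx2 _).trans h2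
    rw [← Real.exp_nat_mul] at h3
    have h4 : ((n + 1 : ℕ) : ℝ) * -(1 / (2 * (n + 1)) * x) = -x / 2 := by
      push_cast
      field_simp
    rw [h4] at h3
    have h5 : Real.exp (-x / 2) = Real.exp (x / 2) * Real.exp (-x) := by
      rw [← Real.exp_add]; congr 1; ring
    rw [h5] at h3
    have h6 := le_of_mul_le_mul_right h3 (Real.exp_pos _)
    have h7 : K + 1 < Real.exp (x / 2) := by
      rw [← Real.log_lt_iff_lt_exp (by linarith)]
      linarith
    linarith
  obtain ⟨ε, hε, hball⟩ : ∃ ε > 0, ∀ z ∈ Metric.ball z₀ ε, Q z ≠ 0 :=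
    Metric.eventually_nhds_iff_ball.1 (hQd.continuous.continuousAt.eventually_ne hz₀)
  set G : ℂ → ℂ := fun z => P z ^ (n + 1) / Q z ^ (m + 1) with hG
  have hGder : ∀ z ∈ Metric.ball z₀ ε, HasDerivAt G 0 z := by
    intro z hz
    have h0 : HasDerivAt (fun z => P z ^ (n + 1)) ((n + 1 : ℂ) * P z ^ n * P' z) z := by
      have := (hP z).fun_pow (n + 1)
      simpa using this
    have h0' : HasDerivAt (fun z => Q z ^ (m + 1)) ((m + 1 : ℂ) * Q z ^ m * Q' z) z := by
      have := (hQ z).fun_pow (m + 1)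
      simpa using this
    have h1 := h0.fun_div h0' (pow_ne_zero _ (hball z hz))
    have h2 := hW0 z
    have h3 : ((n + 1 : ℂ) * P z ^ n * P' z * Q z ^ (m + 1) -
        P z ^ (n + 1) * ((m + 1 : ℂ) * Q z ^ m * Q' z)) / (Q z ^ (m + 1)) ^ 2 = 0 := by
      rw [div_eq_zero_iff]
      left
      linear_combination (P z ^ n * Q z ^ m) * h2
    rw [h3] at h1
    exact h1
  obtain ⟨lam, hlam⟩ : ∃ lam : ℂ, ∀ z ∈ Metric.ball z₀ ε, G z = lam := by
    refine ⟨G z₀, fun z hz => ?_⟩
    refine (convex_ball z₀ ε).is_const_of_fderivWithin_eq_zero (𝕜 := ℂ)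
      (fun w hw => (hGder w hw).differentiableAt.differentiableWithinAt) ?_ hz
      (Metric.mem_ball_self hε)
    intro w hw
    rw [fderivWithin_of_isOpen Metric.isOpen_ball hw]
    exact (hasFDerivAt_iff_hasDerivAt.2 (by simpa using hGder w hw)).fderiv
  have hPQ : (fun z => P z ^ (n + 1)) = fun z => lam * Q z ^ (m + 1) := by
    have hPa : AnalyticOnNhd ℂ (fun z => P z ^ (n + 1)) univ :=
      fun z _ => (hPd.pow (n + 1)).analyticAt z
    have hQa : AnalyticOnNhd ℂ (fun z => lam * Q z ^ (m + 1)) univ :=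
      fun z _ => ((differentiable_const lam).mul (hQd.pow (m + 1))).analyticAt z
    refine hPa.eq_of_eventuallyEq hQa (z₀ := z₀) ?_
    filter_upwards [Metric.ball_mem_nhds z₀ hε] with z hz
    have := hlam z hz
    simp only [hG] at this
    rw [div_eq_iff (pow_ne_zero _ (hball z hz))] at this
    exact this
  -- `lam = 1`
  have hl : lam = 1 := by
    by_contra hl
    set M : ℝ := K + K ^ (m + 1) + K ^ (n + 1) with hM
    have hKm : 0 ≤ K ^ (m + 1) := by positivity
    have hKn : 0 ≤ K ^ (n + 1) := by positivity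
    have hM0 : 0 ≤ M := by positivity
    set B : ℝ := (n + 1) * M ^ n * K + ‖lam‖ * ((m + 1) * M ^ m * K) with hB
    have hB0 : 0 ≤ B := by positivity
    have hd : 0 < ‖1 - lam‖ := norm_pos_iff.2 (sub_ne_zero.2 (Ne.symm hl))
    have hUb : ∀ x : ℝ, 0 ≤ x →
        ‖1 - lam‖ * ‖F x ^ ((m + 1) * (n + 1))‖ ≤ B * Real.exp (-x) := by
      intro x hx
      have hxre : 0 ≤ (x : ℂ).re := by simpa using hx
      have f1 : ‖F x ^ (m + 1)‖ ≤ M := by
        rw [norm_pow]
        have := pow_le_pow_left₀ (norm_nonneg _) (hFr x hxre) (m + 1)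
        linarith
      have f2 : ‖F x ^ (n + 1)‖ ≤ M := by
        rw [norm_pow]
        have := pow_le_pow_left₀ (norm_nonneg _) (hFr x hxre) (n + 1)
        linarith
      have f3 : ‖P x‖ ≤ M := (hPr x hxre).trans (by linarith)
      have f4 : ‖Q x‖ ≤ M := (hQr x hxre).trans (by linarith)
      have g1 : F x ^ (m + 1) - P x = C x := by rw [hpowP]; ring
      have g2 : F x ^ (n + 1) - Q x = E x := by rw [hpowQ]; ring
      have u1 : ‖F x ^ ((m + 1) * (n + 1)) - P x ^ (n + 1)‖ ≤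
          ((n + 1) * M ^ n * K) * Real.exp (-x) := by
        rw [pow_mul]
        refine (pow_sub_pow_le hM0 f1 f3 n).trans ?_
        rw [g1]
        have h := hCr x hxre
        rw [Complex.ofReal_re] at h
        calc (n + 1) * M ^ n * ‖C x‖ ≤ (n + 1) * M ^ n * (K * Real.exp (-x)) := by
              gcongr
          _ = _ := by ring
      have u2 : ‖F x ^ ((m + 1) * (n + 1)) - Q x ^ (m + 1)‖ ≤
          ((m + 1) * M ^ m * K) * Real.exp (-x) := by
        rw [mul_comm (m + 1) (n + 1), pow_mul]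
        refine (pow_sub_pow_le hM0 f2 f4 m).trans ?_
        rw [g2]
        have h := hEr x hxre
        rw [Complex.ofReal_re] at h
        calc (m + 1) * M ^ m * ‖E x‖ ≤ (m + 1) * M ^ m * (K * Real.exp (-x)) := by
              gcongr
          _ = _ := by ring
      have h1 : (1 - lam) * F x ^ ((m + 1) * (n + 1)) =
          (F x ^ ((m + 1) * (n + 1)) - P x ^ (n + 1)) -
            lam * (F x ^ ((m + 1) * (n + 1)) - Q x ^ (m + 1)) := by
        have := congrFun hPQ x
        rw [this]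
        ring
      rw [← norm_mul, h1]
      refine (norm_sub_le _ _).trans ?_
      rw [norm_mul]
      calc _ ≤ ((n + 1) * M ^ n * K) * Real.exp (-x) +
            ‖lam‖ * (((m + 1) * M ^ m * K) * Real.exp (-x)) :=
            add_le_add u1 (mul_le_mul_of_nonneg_left u2 (norm_nonneg _))
        _ = B * Real.exp (-x) := by rw [hB]; ring
    set T : ℝ := (B + 1) / ‖1 - lam‖ with hT
    have hT0 : 0 < T := by positivity
    obtain ⟨x, hx1, hx2⟩ := hlarge (1 / (2 * ((m + 1) * (n + 1)))) (by positivity)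
      (max 0 (2 * Real.log T))
    have hx0 : 0 < x := (le_max_left _ _).trans_lt hx1
    have hx3 : 2 * Real.log T < x := (le_max_right _ _).trans_lt hx1
    have h3 : Real.exp (-x / 2) ≤ ‖F x ^ ((m + 1) * (n + 1))‖ := by
      rw [norm_pow]
      have h4 := pow_le_pow_left₀ (Real.exp_pos _).le hx2 ((m + 1) * (n + 1))
      rw [← Real.exp_nat_mul] at h4
      have h5 : (((m + 1) * (n + 1) : ℕ) : ℝ) * -(1 / (2 * ((m + 1) * (n + 1))) * x) = -x / 2 := by
        push_cast
        field_simp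
      rwa [h5] at h4
    have h4 := (mul_le_mul_of_nonneg_left h3 hd.le).trans (hUb x hx0.le)
    have h5 : Real.exp (-x / 2) = Real.exp (x / 2) * Real.exp (-x) := by
      rw [← Real.exp_add]; congr 1; ring
    rw [h5, ← mul_assoc] at h4
    have h6 := le_of_mul_le_mul_right h4 (Real.exp_pos _)
    have h7 : T < Real.exp (x / 2) := by
      rw [← Real.log_lt_iff_lt_exp hT0]
      linarith
    have h8 : ‖1 - lam‖ * T < ‖1 - lam‖ * Real.exp (x / 2) := mul_lt_mul_of_pos_left h7 hd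
    have h9 : ‖1 - lam‖ * T = B + 1 := by
      rw [hT]; field_simp
    linarith
  intro z
  have := congrFun hPQ z
  simpa [hl] using this

end Pool.Agent.H8VT
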