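import Mathlib
import Pool.Agent.H8VT.Wron

set_option autoImplicit false

/-!
# Equality in `‖a^{m+n}‖ ≤ ‖a^m‖ ‖a^n‖` holds only for finitely many pairs `(m, n)`

Adapted from the module `Y279/VT/Main` of the pool library, which treats `m = n`.
-/

namespace Pool.Agent.H8VT

open MeasureTheory Set Filter Topology
open scoped ENNReal NNReal
open Pool.Agent.Results.MP_81f94f_an.FlatRunsNotNormSequence
open Pool.Agent.Y279.VT (LC_data restrict_null large_of_not_nilpotent norm_pow_small)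

/-- If two (truncated) powers of `a` live on `(0,β)` and on `(0,γ]`, where `β + γ = 1`, then their
transforms satisfy `P ^ n = Q ^ m`. -/
theorem pow_eq {a : ComplexMeasure ℝ} [IsFiniteMeasure a.variation]
    (ha : a.restrict (Ioo 0 1) = a) (hne : ∀ n, 1 ≤ n → measPow a n ≠ 0) {k j : ℕ} {β γ : ℝ}
    (hβγ : β + γ = 1)
    (hk : (measPow a (k + 1)).variation (Ici β) = 0)
    (hj : (measPow a (j + 1)).variation (Ioi γ) = 0) (z : ℂ) :
    LC (measPow a (k + 1)) z ^ (j + 1) = LC (measPow a (j + 1)) z ^ (k + 1) := by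
  have hc := conc_of_restrict ha
  rw [measPow_eq ha] at hk hj ⊢
  rw [measPow_eq ha]
  set A := fullPow a k with hA
  set B := fullPow a j with hB
  have hAc := fullPow_conc hc k
  have hBc := fullPow_conc hc j
  have hPc : (A.restrict (Ioo 0 1)).variation (Ioo 0 β)ᶜ = 0 := by
    apply measure_mono_null (t := Iic 0 ∪ Ici β) _
      (measure_union_null (var_Iic_zero (restrict_null hAc)) hk)
    intro x hx
    by_contra hcon
    simp only [mem_union, mem_Iic, mem_Ici, not_or, not_le] at hcon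
    exact hx ⟨hcon.1, hcon.2⟩
  have hQc : (B.restrict (Ioo 0 1)).variation (Ioc 0 γ)ᶜ = 0 := by
    apply measure_mono_null (t := Iic 0 ∪ Ioi γ) _
      (measure_union_null (var_Iic_zero (restrict_null hBc)) hj)
    intro x hx
    by_contra hcon
    simp only [mem_union, mem_Iic, mem_Ioi, not_or, not_le, not_lt] at hcon
    exact hx ⟨hcon.1, hcon.2⟩
  have hQc1 : (B.restrict (Ioo 0 1)).variation (Ioo 0 1)ᶜ = 0 := by
    rw [VectorMeasure.variation_restrict measurableSet_Ioo,
      Measure.restrict_apply measurableSet_Ioo.compl]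
    simp
  have hCc : (A.restrict (Ici 1)).variation (Ioo 0 ((k : ℝ) + 1))ᶜ = 0 := restrict_null hAc
  have hEc : (B.restrict (Ici 1)).variation (Ioo 0 ((j : ℝ) + 1))ᶜ = 0 := restrict_null hBc
  have hC1 : (A.restrict (Ici 1)).variation (Ici 1)ᶜ = 0 := by
    rw [compl_Ici]; exact var_restrict_Ici A
  have hE1 : (B.restrict (Ici 1)).variation (Ici 1)ᶜ = 0 := by
    rw [compl_Ici]; exact var_restrict_Ici B
  obtain ⟨F', N1, p1, dF, -, bF, -, -⟩ := LC_data a hc
  obtain ⟨P', N2, p2, dP, dP', bP, tP, tP'⟩ := LC_data _ hPc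
  obtain ⟨Q', N3, p3, dQ, dQ', bQ, -, -⟩ := LC_data _ hQc1
  obtain ⟨C', N4, p4, dC, -, bC, -, -⟩ := LC_data _ hCc
  obtain ⟨E', N5, p5, dE, -, bE, -, -⟩ := LC_data _ hEc
  set K := N1 + N2 + N3 + N4 + N5 with hK
  have hleft : ∀ {z : ℂ}, z.re ≤ 0 → ∀ t ∈ Ioo (0 : ℝ) β,
      Real.exp (-z.re * t) ≤ Real.exp (-z.re * β) := by
    intro z hz t ht
    apply Real.exp_le_exp.2
    exact mul_le_mul_of_nonneg_left ht.2.le (by linarith)
  have hleftQ : ∀ {z : ℂ}, z.re ≤ 0 → ∀ t ∈ Ioc (0 : ℝ) γ,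
      Real.exp (-z.re * t) ≤ Real.exp (-z.re * γ) := by
    intro z hz t ht
    apply Real.exp_le_exp.2
    exact mul_le_mul_of_nonneg_left ht.2 (by linarith)
  have hright : ∀ {z : ℂ}, 0 ≤ z.re → ∀ t ∈ Ioo (0 : ℝ) β, Real.exp (-z.re * t) ≤ 1 := by
    intro z hz t ht
    apply Real.exp_le_one_iff.2
    have := ht.1
    nlinarith
  have hrightQ : ∀ {z : ℂ}, 0 ≤ z.re → ∀ t ∈ Ioc (0 : ℝ) γ, Real.exp (-z.re * t) ≤ 1 := by
    intro z hz t ht
    apply Real.exp_le_one_iff.2
    have := ht.1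
    nlinarith
  have hright1 : ∀ {z : ℂ}, 0 ≤ z.re → ∀ t ∈ Ioo (0 : ℝ) 1, Real.exp (-z.re * t) ≤ 1 := by
    intro z hz t ht
    apply Real.exp_le_one_iff.2
    have := ht.1
    nlinarith
  have hright' : ∀ {z : ℂ}, 0 ≤ z.re → ∀ t ∈ Ici (1 : ℝ),
      Real.exp (-z.re * t) ≤ Real.exp (-z.re) := by
    intro z hz t ht
    apply Real.exp_le_exp.2
    have : (1 : ℝ) ≤ t := ht
    nlinarith
  have e0 : ∀ z : ℂ, 0 ≤ Real.exp (-z.re) := fun z => (Real.exp_pos _).le
  have eb : ∀ z : ℂ, 0 ≤ Real.exp (-z.re * β) := fun z => (Real.exp_pos _).le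
  have eg : ∀ z : ℂ, 0 ≤ Real.exp (-z.re * γ) := fun z => (Real.exp_pos _).le
  have up : ∀ {N M y : ℝ}, y ≤ N * M → N ≤ K → 0 ≤ M → y ≤ K * M := by
    intro N M y h1 h2 h3
    exact h1.trans (mul_le_mul_of_nonneg_right h2 h3)
  have up1 : ∀ {N y : ℝ}, y ≤ N * 1 → N ≤ K → y ≤ K := by
    intro N y h1 h2
    linarith
  refine wron hβγ (F := LC a) (P := LC (A.restrict (Ioo 0 1))) (Q := LC (B.restrict (Ioo 0 1)))
    (C := LC (A.restrict (Ici 1))) (E := LC (B.restrict (Ici 1))) (m := k) (n := j) (K := K)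
    dF dP dQ dC dE dP' dQ' ?_ ?_ ?_ ?_ ?_ ?_ ?_ ?_ ?_ ?_ ?_ ?_ ?_ ?_ ?_ ?_ ?_ ?_
    (large_of_not_nilpotent ha hne) z
  · intro z
    rw [← LC_fullPow hc k, ← LC_add (restrict_null hAc) hCc,
      ← restrict_add_split (var_Iic_zero hAc)]
  · intro z
    rw [← LC_fullPow hc j, ← LC_add (restrict_null hBc) hEc,
      ← restrict_add_split (var_Iic_zero hBc)]
  · intro z hz
    exact up (bP _ hPc z _ (hleft hz) (eb z)).1 (by linarith) (eb z)
  · intro z hz
    exact up (bP _ hPc z _ (hleft hz) (eb z)).2 (by linarith) (eb z)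
  · intro z hz
    exact up (bQ _ hQc z _ (hleftQ hz) (eg z)).1 (by linarith) (eg z)
  · intro z hz
    exact up (bQ _ hQc z _ (hleftQ hz) (eg z)).2 (by linarith) (eg z)
  · intro z hz
    exact up1 (bF _ hc z 1 (hright1 hz) zero_le_one).1 (by linarith)
  · intro z hz
    exact up1 (bF _ hc z 1 (hright1 hz) zero_le_one).2 (by linarith)
  · intro z hz
    exact up1 (bP _ hPc z 1 (hright hz) zero_le_one).1 (by linarith)
  · intro z hz
    exact up1 (bP _ hPc z 1 (hright hz) zero_le_one).2 (by linarith)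
  · intro z hz
    exact up1 (bQ _ hQc z 1 (hrightQ hz) zero_le_one).1 (by linarith)
  · intro z hz
    exact up1 (bQ _ hQc z 1 (hrightQ hz) zero_le_one).2 (by linarith)
  · intro z hz
    exact up (bC _ hC1 z _ (hright' hz) (e0 z)).1 (by linarith) (e0 z)
  · intro z hz
    exact up (bC _ hC1 z _ (hright' hz) (e0 z)).2 (by linarith) (e0 z)
  · intro z hz
    exact up (bE _ hE1 z _ (hright' hz) (e0 z)).1 (by linarith) (e0 z)
  · intro z hz
    exact up (bE _ hE1 z _ (hright' hz) (e0 z)).2 (by linarith) (e0 z)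
  · exact tP
  · exact tP'

/-- The supports of two measures whose product gives no mass to `x + y ≥ 1`. -/
theorem exists_split {μ ν : Measure ℝ} [IsFiniteMeasure μ] [IsFiniteMeasure ν]
    (hμ : μ (Ioo 0 1)ᶜ = 0) (hμ0 : μ univ ≠ 0)
    (h : ∀ b : ℝ, μ (Ici b) = 0 ∨ ν (Ici (1 - b)) = 0) :
    (∃ β γ : ℝ, β + γ = 1 ∧ μ (Ici β) = 0 ∧ ν (Ioi γ) = 0) ∨
      (∃ β γ : ℝ, β + γ = 1 ∧ μ (Ioi β) = 0 ∧ ν (Ici γ) = 0) := by
  set T : Set ℝ := {b | μ (Ici b) = 0} with hT
  have h1 : (1 : ℝ) ∈ T := by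
    apply measure_mono_null _ hμ
    intro x hx hx'
    exact absurd hx'.2 (not_lt.2 hx)
  have hb : BddBelow T := by
    refine ⟨0, fun b hb => ?_⟩
    by_contra hneg
    apply hμ0
    have h2 : (univ : Set ℝ) ⊆ Ici b ∪ (Ioo 0 1)ᶜ := by
      intro x _
      by_cases hx : x ∈ Ioo (0 : ℝ) 1
      · left
        have := hx.1
        simp only [mem_Ici]
        linarith [not_le.1 hneg]
      · exact Or.inr hx
    exact measure_mono_null h2 (measure_union_null hb hμ)
  set β := sInf T with hβ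
  have key : ∀ {m : Measure ℝ} {c : ℝ}, (∀ b > c, m (Ici b) = 0) → m (Ioi c) = 0 := by
    intro m c hm
    have : Ioi c ⊆ ⋃ n : ℕ, Ici (c + 1 / ((n : ℝ) + 1)) := by
      intro x hx
      obtain ⟨n, hn⟩ := exists_nat_one_div_lt (sub_pos.2 (mem_Ioi.1 hx))
      exact mem_iUnion.2 ⟨n, by simp only [mem_Ici]; linarith⟩
    apply measure_mono_null this
    rw [measure_iUnion_null_iff]
    intro n
    apply hm
    have : (0 : ℝ) < 1 / ((n : ℝ) + 1) := by positivity
    linarith
  have hgt : μ (Ioi β) = 0 := by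
    apply key
    intro b hb'
    obtain ⟨b', hb1, hb2⟩ := exists_lt_of_csInf_lt ⟨1, h1⟩ hb'
    exact measure_mono_null (Ici_subset_Ici.2 hb2.le) hb1
  have hν : ν (Ioi (1 - β)) = 0 := by
    apply key
    intro b hb'
    have h3 : (1 - b) ∉ T := by
      intro hmem
      have := csInf_le hb hmem
      rw [← hβ] at this
      linarith
    rcases h (1 - b) with h4 | h4
    · exact absurd h4 h3
    · rwa [sub_sub_cancel] at h4
  rcases h β with h5 | h5
  · exact Or.inl ⟨β, 1 - β, by ring, h5, hν⟩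
  · exact Or.inr ⟨β, 1 - β, by ring, hgt, h5⟩

/-- equality of norms forces the supports to be complementary -/
theorem prod_null {b c : ComplexMeasure ℝ} [IsFiniteMeasure b.variation]
    [IsFiniteMeasure c.variation]
    (h : (truncConv b c).variation univ = b.variation univ * c.variation univ) (x : ℝ) :
    b.variation (Ici x) = 0 ∨ c.variation (Ici (1 - x)) = 0 := by
  have h1 : (truncConv b c).variation univ ≤ (b.variation.prod c.variation)
      ((fun p : ℝ × ℝ => p.1 + p.2) ⁻¹' (Ioo 0 1)) := by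
    unfold truncConv
    rw [VectorMeasure.variation_restrict measurableSet_Ioo, Measure.restrict_apply_univ]
    exact variation_fconv_apply_le _ _ measurableSet_Ioo
  set S : Set (ℝ × ℝ) := (fun p : ℝ × ℝ => p.1 + p.2) ⁻¹' (Ioo 0 1) with hS
  have hSm : MeasurableSet S := measurableSet_Ioo.preimage (by fun_prop)
  have h2 : (b.variation.prod c.variation) univ = b.variation univ * c.variation univ := by
    rw [← univ_prod_univ, Measure.prod_prod]
  have h3 : (b.variation.prod c.variation) Sᶜ = 0 := by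
    have h4 := measure_add_measure_compl (μ := b.variation.prod c.variation) hSm
    rw [h2, ← h] at h4
    have h5 : (b.variation.prod c.variation) S + (b.variation.prod c.variation) Sᶜ ≤
        (b.variation.prod c.variation) S + 0 := by
      rw [h4, add_zero]; exact h1
    exact nonpos_iff_eq_zero.1
      ((ENNReal.add_le_add_iff_left (measure_ne_top _ _)).1 h5)
  have h6 : (b.variation.prod c.variation) (Ici x ×ˢ Ici (1 - x)) = 0 := by
    apply measure_mono_null _ h3
    intro p hp hp'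
    have := hp'.2
    simp only [mem_prod, mem_Ici] at hp
    simp only at this
    linarith [hp.1, hp.2]
  rw [Measure.prod_prod] at h6
  exact mul_eq_zero.1 h6

theorem truncConv_pow {a : ComplexMeasure ℝ} [IsFiniteMeasure a.variation]
    (ha : a.restrict (Ioo 0 1) = a) (k j : ℕ) :
    truncConv (measPow a (k + 1)) (measPow a (j + 1)) = measPow a ((k + 1) + (j + 1)) := by
  rw [measPow_eq ha, measPow_eq ha, truncConv_eq (conc_of_restrict ha),
    show (k + 1) + (j + 1) = (k + j + 1) + 1 by ring, measPow_eq ha]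

instance measPow_fin (a : ComplexMeasure ℝ) [IsFiniteMeasure a.variation] (n : ℕ) :
    IsFiniteMeasure (measPow a n).variation := Pool.Agent.Y279.VT.measPow_fin a n

/-- the norms are submultiplicative -/
theorem norm_add_le {a : ComplexMeasure ℝ} [IsFiniteMeasure a.variation]
    (ha : a.restrict (Ioo 0 1) = a) (k j : ℕ) :
    (measPow a ((k + 1) + (j + 1))).variation univ ≤
      (measPow a (k + 1)).variation univ * (measPow a (j + 1)).variation univ := by
  rw [← truncConv_pow ha]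
  unfold truncConv
  rw [VectorMeasure.variation_restrict measurableSet_Ioo, Measure.restrict_apply_univ]
  refine (variation_fconv_apply_le _ _ measurableSet_Ioo).trans ?_
  refine (measure_mono (subset_univ _)).trans ?_
  rw [← univ_prod_univ, Measure.prod_prod]

/-- the pairs with equality -/
def Eq2 (a : ComplexMeasure ℝ) (m n : ℕ) : Prop :=
  (measPow a (m + n)).variation univ = (measPow a m).variation univ * (measPow a n).variation univ

/-- equality forces `P ^ n = Q ^ m` -/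
theorem pow_eq_of_eq {a : ComplexMeasure ℝ} [IsFiniteMeasure a.variation]
    (ha : a.restrict (Ioo 0 1) = a) (hne : ∀ n, 1 ≤ n → measPow a n ≠ 0) {k j : ℕ}
    (h : Eq2 a (k + 1) (j + 1)) (z : ℂ) :
    LC (measPow a (k + 1)) z ^ (j + 1) = LC (measPow a (j + 1)) z ^ (k + 1) := by
  unfold Eq2 at h
  rw [← truncConv_pow ha] at h
  have hp := prod_null h
  have hconc : (measPow a (k + 1)).variation (Ioo 0 1)ᶜ = 0 := by
    rw [measPow_eq ha, VectorMeasure.variation_restrict measurableSet_Ioo,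
      Measure.restrict_apply measurableSet_Ioo.compl]
    simp
  have h0 : (measPow a (k + 1)).variation univ ≠ 0 := by
    intro h0
    apply hne (k + 1) (by omega)
    rw [← VectorMeasure.variation_eq_zero]
    exact Measure.measure_univ_eq_zero.1 h0
  rcases exists_split hconc h0 hp with ⟨β, γ, hβγ, h1, h2⟩ | ⟨β, γ, hβγ, h1, h2⟩
  · exact pow_eq ha hne hβγ h1 h2 z
  · exact (pow_eq ha hne (by rw [add_comm]; exact hβγ) h2 h1 z).symm

/-- A power that is linked with infinitely many others vanishes. -/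
theorem not_infinite_link {a : ComplexMeasure ℝ} [IsFiniteMeasure a.variation]
    (ha : a.restrict (Ioo 0 1) = a) (hne : ∀ n, 1 ≤ n → measPow a n ≠ 0) (k : ℕ) {T : Set ℕ}
    (hT : ∀ j ∈ T, ∀ z : ℂ,
      LC (measPow a (k + 1)) z ^ (j + 1) = LC (measPow a (j + 1)) z ^ (k + 1)) : T.Finite := by
  by_contra hinf
  rw [Set.not_finite] at hinf
  have hmc : (measPow a (k + 1)).variation (Ioo 0 1)ᶜ = 0 := by
    rw [measPow_eq ha, VectorMeasure.variation_restrict measurableSet_Ioo,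
      Measure.restrict_apply measurableSet_Ioo.compl]
    simp
  apply hne (k + 1) (by omega)
  apply eq_zero_of_LC hmc
  intro ξ
  by_contra hpne
  set p : ℝ := ‖LC (measPow a (k + 1)) (-(ξ * Complex.I))‖ with hp
  have hp0 : 0 < p := norm_pos_iff.2 hpne
  set ℓ : ℝ := min 1 (p / 2) with hℓ
  have hℓ0 : 0 < ℓ := lt_min one_pos (by linarith)
  have hℓ1 : ℓ ≤ 1 := min_le_left _ _
  have hℓp : ℓ ≤ p / 2 := min_le_right _ _
  obtain ⟨C, hC0, hC⟩ := norm_pow_small ha hℓ0
  obtain ⟨N, hN⟩ := pow_unbounded_of_one_lt (C ^ (k + 1)) (one_lt_two)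
  obtain ⟨j, hj, hNj⟩ := hinf.exists_gt N
  have h1 := hT j hj (-(ξ * Complex.I))
  have h2 : p ^ (j + 1) = ‖LC (measPow a (j + 1)) (-(ξ * Complex.I))‖ ^ (k + 1) := by
    rw [hp, ← norm_pow, h1, norm_pow]
  have h3 : ‖LC (measPow a (j + 1)) (-(ξ * Complex.I))‖ ≤ C * ℓ ^ (j + 1) := by
    refine (LC_norm_le (c := measPow a (j + 1)) ξ).trans ?_
    rw [Measure.real]
    exact ENNReal.toReal_le_of_le_ofReal (by positivity) (hC j)
  have h4 : p ^ (j + 1) ≤ C ^ (k + 1) * (p / 2) ^ (j + 1) := by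
    calc p ^ (j + 1) ≤ (C * ℓ ^ (j + 1)) ^ (k + 1) := by
          rw [h2]; exact pow_le_pow_left₀ (norm_nonneg _) h3 _
      _ = C ^ (k + 1) * (ℓ ^ (k + 1)) ^ (j + 1) := by
          rw [mul_pow, ← pow_mul, ← pow_mul, mul_comm (j + 1)]
      _ ≤ C ^ (k + 1) * (p / 2) ^ (j + 1) := by
          gcongr
          calc ℓ ^ (k + 1) ≤ ℓ ^ 1 := pow_le_pow_of_le_one hℓ0.le hℓ1 (by omega)
            _ = ℓ := pow_one _
            _ ≤ p / 2 := hℓp
  have h5 : (2 : ℝ) ^ (j + 1) ≤ C ^ (k + 1) := by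
    have hpp : 0 < (p / 2) ^ (j + 1) := by positivity
    rw [← mul_le_mul_iff_left₀ hpp, ← mul_pow]
    have : 2 * (p / 2) = p := by ring
    rw [this]
    exact h4
  have h6 : (2 : ℝ) ^ N ≤ 2 ^ (j + 1) := pow_le_pow_right₀ one_le_two (by omega)
  linarith

/-- **Main theorem.** If all powers of `a ∈ M(0,1)` are nonzero, then the equality
`‖a^{m+n}‖ = ‖a^m‖ ‖a^n‖` holds only for finitely many pairs. -/
theorem finite_pairs {a : ComplexMeasure ℝ} [IsFiniteMeasure a.variation]
    (ha : a.restrict (Ioo 0 1) = a) (hne : ∀ n, 1 ≤ n → measPow a n ≠ 0) :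
    {p : ℕ × ℕ | Eq2 a (p.1 + 1) (p.2 + 1)}.Finite := by
  have hsym : ∀ m n, Eq2 a m n → Eq2 a n m := by
    intro m n h
    unfold Eq2 at h ⊢
    rw [add_comm, h, mul_comm]
  -- for each `m`, finitely many `n`
  have hA : ∀ k : ℕ, {j : ℕ | Eq2 a (k + 1) (j + 1)}.Finite := fun k =>
    not_infinite_link ha hne k fun j hj z => pow_eq_of_eq ha hne hj z
  -- finitely many powers on the left half
  set S : Set ℕ := {j : ℕ | (measPow a (j + 1)).variation (Ici (1 / 2)) = 0} with hS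
  have hSfin : S.Finite := by
    rcases S.eq_empty_or_nonempty with h | ⟨k, hk⟩
    · rw [h]; exact Set.finite_empty
    · refine not_infinite_link ha hne k fun j hj z => ?_
      exact Pool.Agent.Y279.VT.pow_eq ha hne hk hj z
  have hU : (⋃ k ∈ S, {p : ℕ × ℕ | p.1 = k ∧ Eq2 a (k + 1) (p.2 + 1)}).Finite := by
    refine hSfin.biUnion fun k _ => ?_
    refine ((hA k).image (fun j => (k, j))).subset ?_
    rintro ⟨x, y⟩ ⟨rfl, h⟩
    exact ⟨y, h, rfl⟩
  have hV : (⋃ k ∈ S, {p : ℕ × ℕ | p.2 = k ∧ Eq2 a (k + 1) (p.1 + 1)}).Finite := by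
    refine hSfin.biUnion fun k _ => ?_
    refine ((hA k).image (fun j => (j, k))).subset ?_
    rintro ⟨x, y⟩ ⟨rfl, h⟩
    exact ⟨x, h, rfl⟩
  refine (hU.union hV).subset ?_
  rintro ⟨k, j⟩ h
  have h' : Eq2 a (k + 1) (j + 1) := h
  have h2 := h'
  unfold Eq2 at h2
  rw [← truncConv_pow ha] at h2
  rcases prod_null h2 (1 / 2) with h3 | h3
  · left
    refine mem_iUnion₂.2 ⟨k, h3, rfl, h'⟩
  · right
    rw [show (1 : ℝ) - 1 / 2 = 1 / 2 by norm_num] at h3
    exact mem_iUnion₂.2 ⟨j, h3, rfl, hsym _ _ h'⟩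

end Pool.Agent.H8VT
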